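import Pool.Agent.Helper69.QC.St

/-!
# Project QD, part C, module CNT: measure of the angles missing the thick part
-/

set_option autoImplicit false

open Complex MeasureTheory Set Filter Topology Metric
open scoped Real ComplexConjugate

namespace Pool.Agent.Helper72.QC

open Pool.Agent.Helper69.QC

theorem cCNT (cna : St_CNA) (cnb : St_CNB) (cnc : St_CNC) : St_CNT := by
  intro ε hε hε2 a b hab
  obtain ⟨N, hN⟩ : ∃ N : ℕ, N = ⌊Real.exp ((a : ℝ) / 2)⌋₊ := ⟨_, rfl⟩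
  obtain ⟨δ, hδ⟩ : ∃ δ : ℝ, δ = Real.exp (-(b : ℝ) / 2) / 2 := ⟨_, rfl⟩
  have hδ0 : 0 ≤ δ := by
    rw [hδ]
    positivity
  have hNle : (N : ℝ) ≤ Real.exp ((a : ℝ) / 2) := by
    rw [hN]
    exact Nat.floor_le (Real.exp_pos _).le
  have hbox : ∀ p : ℤ, (p : ℝ) ^ 2 ≤ Real.exp a → p ∈ Finset.Icc (-(N : ℤ)) N := by
    intro p hp
    have h1 : |(p : ℝ)| ≤ Real.exp ((a : ℝ) / 2) := by
      apply abs_le_of_sq_le_sq _ (Real.exp_pos _).le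
      rw [← Real.exp_nat_mul]
      have : ((2 : ℕ) : ℝ) * ((a : ℝ) / 2) = a := by
        push_cast
        ring
      rw [this]
      exact hp
    have h2 : p.natAbs ≤ N := by
      rw [hN]
      apply Nat.le_floor
      rw [Nat.cast_natAbs, Int.cast_abs]
      exact h1
    rw [Finset.mem_Icc]
    omega
  obtain ⟨T, hT⟩ : ∃ T, T = (Finset.Icc (-(N : ℤ)) N ×ˢ Finset.Icc (-(N : ℤ)) N).filter
    (fun x => x ≠ (0, 0)) := ⟨_, rfl⟩
  have hsub : {θ : ℝ | θ ∈ Icc 0 (2 * π) ∧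
      ∀ j : ℕ, a ≤ j → j ≤ b → circleMap 0 (rr j) θ ∉ Thk ε} ⊆
      ⋃ x ∈ T, {θ : ℝ | θ ∈ Icc 0 (2 * π) ∧
        |(x.1 : ℝ) * Real.cos (θ / 2) + x.2 * Real.sin (θ / 2)| ≤ δ} := by
    rintro θ ⟨hθ, hj⟩
    obtain ⟨p, q, hpq, hsq, hle⟩ := cna ε hε hε2 a b hab θ hj
    simp only [Set.mem_iUnion]
    refine ⟨(p, q), ?_, hθ, by rw [hδ]; exact hle⟩
    rw [hT, Finset.mem_filter, Finset.mem_product]
    exact ⟨⟨hbox p (by nlinarith [sq_nonneg (q : ℝ)]), hbox q (by nlinarith [sq_nonneg (p : ℝ)])⟩, hpq⟩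
  refine (measure_mono hsub).trans ((measure_biUnion_finset_le _ _).trans ?_)
  have h1 : ∑ x ∈ T, volume {θ : ℝ | θ ∈ Icc 0 (2 * π) ∧
        |(x.1 : ℝ) * Real.cos (θ / 2) + x.2 * Real.sin (θ / 2)| ≤ δ} ≤
      ∑ x ∈ T, ENNReal.ofReal (2 * π * δ / max |(x.1 : ℝ)| |(x.2 : ℝ)|) := by
    refine Finset.sum_le_sum fun x hx => ?_
    rw [hT, Finset.mem_filter] at hx
    exact cnb x.1 x.2 hx.2 δ hδ0
  refine h1.trans ?_
  rw [← ENNReal.ofReal_sum_of_nonneg (fun x _ => by positivity)]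
  apply ENNReal.ofReal_le_ofReal
  have h2 : ∑ x ∈ T, 2 * π * δ / max |(x.1 : ℝ)| |(x.2 : ℝ)| =
      2 * π * δ * ∑ x ∈ T, (1 : ℝ) / max |(x.1 : ℝ)| |(x.2 : ℝ)| := by
    rw [Finset.mul_sum]
    exact Finset.sum_congr rfl fun x _ => by rw [mul_one_div]
  have h3 : ∑ x ∈ T, (1 : ℝ) / max |(x.1 : ℝ)| |(x.2 : ℝ)| ≤ 8 * N := by
    rw [hT]
    exact cnc N
  rw [h2]
  have h4 : 2 * π * δ * ∑ x ∈ T, (1 : ℝ) / max |(x.1 : ℝ)| |(x.2 : ℝ)| ≤ 2 * π * δ * (8 * Real.exp ((a : ℝ) / 2)) := by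
    apply mul_le_mul_of_nonneg_left _ (by positivity)
    linarith
  refine h4.trans ?_
  have h5 : Real.exp (-((b : ℝ) - a) / 2) = Real.exp (-(b : ℝ) / 2) * Real.exp ((a : ℝ) / 2) := by
    rw [← Real.exp_add]
    congr 1
    ring
  rw [h5, hδ]
  have h6 : 0 < Real.exp (-(b : ℝ) / 2) * Real.exp ((a : ℝ) / 2) := by positivity
  have h7 : π ≤ 4 := Real.pi_le_four
  nlinarith

end Pool.Agent.Helper72.QC
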